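import Mathlib

/-!
# Minimum cutsets and maximal antichains in a distributive lattice with 52 elements
-/

namespace Pool.Agent.Results.MP_d015b4_co.Lattice52

/-- A cutset of `P`: a subset meeting every maximal chain. -/
def IsCutset {P : Type} [PartialOrder P] (K : Set P) : Prop :=
  ∀ C : Set P, IsMaxChain (· ≤ ·) C → (K ∩ C).Nonempty

/-- A cutset for `x`: a set `K` of elements incomparable to `x` such that `K ∪ {x}` meets every
maximal chain. -/
def IsCutsetFor {P : Type} [PartialOrder P] (x : P) (K : Set P) : Prop :=
  (∀ y ∈ K, ¬ y ≤ x ∧ ¬ x ≤ y) ∧ IsCutset (K ∪ {x})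

/-! ### The lattice -/

/-- The lattice `2 × 2 × ((3 × 2 × 2) ⊕ 1)`, where `⊕ 1` adds a new top element. -/
abbrev L : Type := Bool × Bool × WithTop (Fin 3 × Bool × Bool)

def el (a b : Bool) (i : Fin 3) (c d : Bool) : L := (a, b, ((i, c, d) : Fin 3 × Bool × Bool))

def tt (a b : Bool) : L := (a, b, ⊤)

def x0 : L := el true true 0 true true

def cutL : List L :=
  [el true false 1 true true, el false true 1 true true, el true true 1 true false,
   el true true 1 false true, el false false 2 true true, el true false 2 true true,
   el false true 2 true true, el true true 2 true false, el true true 2 false true]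

def regL : List L :=
  [el false false 0 false false, el false false 1 false false,
   el false false 0 true false, el false false 1 true false, el false false 0 false true,
   el false false 1 false true, el false false 0 true true, el false false 1 true true,
   el true false 0 false false, el true false 1 false false, el true false 0 true false,
   el true false 1 true false, el true false 0 false true, el true false 1 false true,
   el true false 0 true true, el false true 0 false false, el false true 1 false false,
   el false true 0 true false, el false true 1 true false, el false true 0 false true,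
   el false true 1 false true, el false true 0 true true, el true true 0 false false,
   el true true 1 false false, el true true 0 true false, el true true 0 false true,
   el false false 2 false false, el false false 2 true false, el false false 2 false true,
   el true false 2 false false, el true false 2 true false, el true false 2 false true,
   el false true 2 false false, el false true 2 true false, el false true 2 false true,
   el true true 2 false false]

def incL : List L :=
  [el false false 1 false false, el false false 1 true false, el false false 1 false true,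
   el true false 1 false false, el false true 1 false false, el false false 2 false false,
   el false false 1 true true, el true false 1 true false, el true false 1 false true,
   el false true 1 true false, el false true 1 false true, el true true 1 false false,
   el false false 2 true false, el false false 2 false true, el true false 2 false false,
   el false true 2 false false, el true false 1 true true, el false true 1 true true,
   el true true 1 true false, el true true 1 false true, el false false 2 true true,
   el true false 2 true false, el true false 2 false true, el false true 2 true false,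
   el false true 2 false true, el true true 2 false false, el true false 2 true true,
   el false true 2 true true, el true true 2 true false, el true true 2 false true,
   tt false false, tt true false, tt false true]

def chainsL : List (List L) :=
  [[el false false 0 false false, el false false 1 false false,
     el false false 2 false false, el false false 2 true false, el false false 2 true true,
     tt false false, tt true false, tt true true],
   [el false false 0 false false, el false false 0 true false, el false false 1 true false,
     el false false 1 true true, el true false 1 true true, el true true 1 true true,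
     el true true 2 true true, tt true true],
   [el false false 0 false false, el false false 0 true false, el false false 0 true true,
     el false true 0 true true, el false true 1 true true, el true true 1 true true,
     el true true 2 true true, tt true true],
   [el false false 0 false false, el false false 0 true false, el true false 0 true false,
     el true false 1 true false, el true false 2 true false, el true false 2 true true,
     el true true 2 true true, tt true true],
   [el false false 0 false false, el false false 0 true false, el true false 0 true false,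
     el true true 0 true false, el true true 1 true false, el true true 1 true true,
     el true true 2 true true, tt true true],
   [el false false 0 false false, el false false 0 true false, el false true 0 true false,
     el false true 1 true false, el false true 2 true false, el false true 2 true true,
     el true true 2 true true, tt true true],
   [el false false 0 false false, el false false 0 false true, el false false 1 false true,
     el true false 1 false true, el true true 1 false true, el true true 1 true true,
     el true true 2 true true, tt true true],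
   [el false false 0 false false, el false false 0 false true, el false true 0 false true,
     el false true 1 false true, el false true 2 false true, el true true 2 false true,
     el true true 2 true true, tt true true],
   [el false false 0 false false, el true false 0 false false, el true false 1 false false,
     el true true 1 false false, el true true 2 false false, el true true 2 true false,
     el true true 2 true true, tt true true]]

set_option synthInstance.maxSize 4000 in
theorem region_step' : ∀ c ∈ regL, ∀ d : L,
    (c ≤ d ∧ ¬ d ≤ c ∧ d ∉ regL ∧ d ≠ x0 ∧ d ∉ cutL) →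
    ∃ e : L, (c ≤ e ∧ ¬ e ≤ c) ∧ (e ≤ d ∧ ¬ d ≤ e) := by
  decide +kernel

theorem region_step (c : L) (hc : c ∈ regL) (d : L) (h1 : c ≤ d) (h2 : ¬ d ≤ c) (h3 : d ∉ regL)
    (h4 : d ≠ x0) (h5 : d ∉ cutL) : ∃ e : L, (c ≤ e ∧ ¬ e ≤ c) ∧ (e ≤ d ∧ ¬ d ≤ e) :=
  region_step' c hc d ⟨h1, h2, h3, h4, h5⟩

theorem region_bot : (⊥ : L) ∈ regL := by decide +kernel

theorem region_top : (⊤ : L) ∉ regL := by decide +kernel

theorem cut_inc : ∀ y ∈ cutL, ¬ y ≤ x0 ∧ ¬ x0 ≤ y := by decide +kernel

theorem cut_nodup : cutL.Nodup := by decide +kernel

theorem chains_chain : ∀ ch ∈ chainsL, ∀ y ∈ ch, ∀ z ∈ ch, y ≤ z ∨ z ≤ y := by decide +kernel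

theorem chains_max : ∀ ch ∈ chainsL, ∀ y : L, (∀ z ∈ ch, y ≤ z ∨ z ≤ y) → y ∈ ch := by
  decide +kernel

theorem chains_x : ∀ ch ∈ chainsL, x0 ∉ ch := by decide +kernel

def chainF (i : Fin 9) : List L := chainsL.getD i.val []

theorem chainF_mem : ∀ i : Fin 9, chainF i ∈ chainsL := by decide +kernel

set_option synthInstance.maxSize 4000 in
theorem chains_disj' : ∀ i j : Fin 9, ∀ y : L,
    (y ∈ chainF i ∧ y ∈ chainF j ∧ ¬ y ≤ x0 ∧ ¬ x0 ≤ y) → i = j := by decide +kernel

theorem chains_disj (i j : Fin 9) (y : L) (h1 : y ∈ chainF i) (h2 : y ∈ chainF j)
    (h3 : ¬ y ≤ x0) (h4 : ¬ x0 ≤ y) : i = j := chains_disj' i j y ⟨h1, h2, h3, h4⟩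

theorem inc_mem : ∀ y : L, ¬ y ≤ x0 → ¬ x0 ≤ y → y ∈ incL := by decide +kernel

theorem inc_inc : ∀ y ∈ incL, ¬ y ≤ x0 ∧ ¬ x0 ≤ y := by decide +kernel

def cmp (a b : L) : Bool := decide (a ≤ b) || decide (b ≤ a)

def ext (ch : List L) : Bool := incL.any (fun y => ch.all (fun c => !(cmp y c)))

def go : ℕ → List L → List L → Bool
  | 0, _, _ => false
  | k + 1, r, ch =>
    if ch.length + r.length < 9 then true else
      match r with
      | [] => (ch.length != 9) || ext ch
      | e :: r' => go k r' ch && go k (r'.filter (fun y => !(cmp y e))) (e :: ch)

theorem go_all : go 40 incL [] = true := by decide +kernel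


theorem go_sound (k : ℕ) : ∀ (r ch : List L), go k r ch = true → ch.Nodup →
    ∀ A : Finset L, (∀ a ∈ ch, a ∈ A) → (∀ a ∈ A, a ∈ ch ∨ a ∈ r) →
      (∀ a ∈ A, ∀ b ∈ A, a ≠ b → cmp a b = false) → A.card = 9 →
      ∃ y ∈ incL, ∀ a ∈ A, cmp y a = false := by
  induction k with
  | zero => intro r ch h; simp [go] at h
  | succ k ih =>
    intro r ch h hnd A h1 h2 h3 hA
    unfold go at h
    by_cases hlen : ch.length + r.length < 9
    · exfalso
      have hsub : A ⊆ (ch ++ r).toFinset := by
        intro a ha
        rw [List.mem_toFinset, List.mem_append]
        exact h2 a ha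
      have := (Finset.card_le_card hsub).trans (List.toFinset_card_le _)
      rw [List.length_append] at this
      omega
    · rw [if_neg hlen] at h
      cases r with
      | nil =>
        simp only [Bool.or_eq_true] at h
        have hAeq : A = ch.toFinset := by
          ext a
          rw [List.mem_toFinset]
          constructor
          · intro ha
            rcases h2 a ha with h' | h'
            · exact h'
            · simp at h'
          · exact h1 a
        have hl : ch.length = 9 := by
          rw [hAeq, List.toFinset_card_of_nodup hnd] at hA
          exact hA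
        rcases h with h | h
        · rw [hl] at h
          simp at h
        · unfold ext at h
          rw [List.any_eq_true] at h
          obtain ⟨y, hy, hy2⟩ := h
          rw [List.all_eq_true] at hy2
          refine ⟨y, hy, fun a ha => ?_⟩
          rw [hAeq, List.mem_toFinset] at ha
          have := hy2 a ha
          simpa using this
      | cons e r' =>
        simp only [Bool.and_eq_true] at h
        by_cases heA : e ∈ A
        · by_cases hech : e ∈ ch
          · refine ih r' ch h.1 hnd A h1 ?_ h3 hA
            intro a ha
            rcases h2 a ha with h' | h'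
            · exact Or.inl h'
            · rcases List.mem_cons.1 h' with rfl | h''
              · exact Or.inl hech
              · exact Or.inr h''
          · refine ih _ _ h.2 (List.nodup_cons.2 ⟨hech, hnd⟩) A ?_ ?_ h3 hA
            · intro a ha
              rcases List.mem_cons.1 ha with rfl | h''
              · exact heA
              · exact h1 a h''
            · intro a ha
              rcases h2 a ha with h' | h'
              · exact Or.inl (List.mem_cons_of_mem _ h')
              · rcases List.mem_cons.1 h' with rfl | h''
                · exact Or.inl List.mem_cons_self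
                · by_cases hae : a = e
                  · exact Or.inl (hae ▸ List.mem_cons_self)
                  · right
                    rw [List.mem_filter]
                    exact ⟨h'', by rw [h3 a ha e heA hae]; rfl⟩
        · refine ih r' ch h.1 hnd A h1 ?_ h3 hA
          intro a ha
          rcases h2 a ha with h' | h'
          · exact Or.inl h'
          · rcases List.mem_cons.1 h' with rfl | h''
            · exact absurd ha heA
            · exact Or.inr h''

theorem cmp_false_iff (a b : L) : cmp a b = false ↔ ¬ a ≤ b ∧ ¬ b ≤ a := by
  simp [cmp]

/-- `cutL` is a cutset for `x0`. -/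
theorem cutL_isCutsetFor : IsCutsetFor x0 {y | y ∈ cutL} := by
  classical
  refine ⟨fun y hy => cut_inc y hy, ?_⟩
  intro C hC
  by_contra hcon
  rw [Set.not_nonempty_iff_eq_empty] at hcon
  have hno : ∀ d ∈ C, d ∉ cutL ∧ d ≠ x0 := by
    intro d hd
    constructor
    · intro h
      have : d ∈ ({y | y ∈ cutL} ∪ {x0}) ∩ C := ⟨Or.inl h, hd⟩
      rw [hcon] at this
      exact this
    · intro h
      have : d ∈ ({y | y ∈ cutL} ∪ {x0}) ∩ C := ⟨Or.inr h, hd⟩
      rw [hcon] at this
      exact this
  have hbot : (⊥ : L) ∈ C := by
    have : C = insert ⊥ C := hC.2 (hC.1.insert (fun b _ _ => Or.inl bot_le)) (Set.subset_insert _ _)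
    rw [this]; exact Set.mem_insert _ _
  have htop : (⊤ : L) ∈ C := by
    have : C = insert ⊤ C := hC.2 (hC.1.insert (fun b _ _ => Or.inr le_top)) (Set.subset_insert _ _)
    rw [this]; exact Set.mem_insert _ _
  have htot : ∀ a ∈ C, ∀ b ∈ C, a ≤ b ∨ b ≤ a := by
    intro a ha b hb
    by_cases hab : a = b
    · exact Or.inl hab.le
    · exact hC.1 ha hb hab
  -- a largest element of C in the region
  let S : Finset L := Finset.univ.filter (fun c => c ∈ C ∧ c ∈ regL)
  have hS : S.Nonempty := ⟨⊥, by simp [S, hbot, region_bot]⟩
  obtain ⟨c, hcS, hcmax⟩ := S.exists_maximal hS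
  have hc : c ∈ C ∧ c ∈ regL := by simpa [S] using hcS
  -- a least element of C above c
  let D : Finset L := Finset.univ.filter (fun d => d ∈ C ∧ c ≤ d ∧ ¬ d ≤ c)
  have hD : D.Nonempty := by
    refine ⟨⊤, ?_⟩
    have : ¬ (⊤ : L) ≤ c := by
      intro h
      have : c = ⊤ := le_antisymm le_top h
      exact region_top (this ▸ hc.2)
    simp only [D, Finset.mem_filter, Finset.mem_univ, true_and]
    exact ⟨htop, le_top, this⟩
  obtain ⟨d, hdD, hdmin⟩ := D.exists_minimal hD
  have hd : d ∈ C ∧ c ≤ d ∧ ¬ d ≤ c := by simpa [D] using hdD
  have hdreg : d ∉ regL := by
    intro h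
    have : d ∈ S := by simp only [S, Finset.mem_filter, Finset.mem_univ, true_and]; exact ⟨hd.1, h⟩
    exact hd.2.2 (hcmax this hd.2.1)
  obtain ⟨e, he1, he2⟩ := region_step c hc.2 d hd.2.1 hd.2.2 hdreg (hno d hd.1).2 (hno d hd.1).1
  have heC : e ∈ C := by
    have hins : IsChain (· ≤ ·) (insert e C) := by
      refine hC.1.insert ?_
      intro b hb _
      by_cases hbc : b ≤ c
      · exact Or.inr (hbc.trans he1.1)
      · have hcb : c ≤ b := (htot b hb c hc.1).resolve_left hbc
        have hbD : b ∈ D := by
          simp only [D, Finset.mem_filter, Finset.mem_univ, true_and]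
          exact ⟨hb, hcb, hbc⟩
        left
        rcases htot d hd.1 b hb with h | h
        · exact he2.1.trans h
        · exact he2.1.trans (hdmin hbD h)
    have : C = insert e C := hC.2 hins (Set.subset_insert _ _)
    rw [this]; exact Set.mem_insert _ _
  have heD : e ∈ D := by
    simp only [D, Finset.mem_filter, Finset.mem_univ, true_and]
    exact ⟨heC, he1⟩
  exact he2.2 (hdmin heD he2.1)

theorem lower_bound (K : Set L) (hK : IsCutsetFor x0 K) : ((9 : ℕ) : ℕ∞) ≤ K.encard := by
  have h1 : ∀ i : Fin 9, ∃ y ∈ K, y ∈ chainF i := by
    intro i
    have hmem := chainF_mem i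
    have hmax : IsMaxChain (· ≤ ·) {y | y ∈ chainF i} := by
      refine ⟨?_, ?_⟩
      · intro a ha b hb _
        exact chains_chain _ hmem a ha b hb
      · intro t ht hsub
        apply Set.Subset.antisymm hsub
        intro y hy
        apply chains_max _ hmem
        intro z hz
        by_cases hyz : y = z
        · exact Or.inl hyz.le
        · exact ht hy (hsub hz) hyz
    obtain ⟨y, hy1, hy2⟩ := hK.2 _ hmax
    rcases hy1 with hy1 | hy1
    · exact ⟨y, hy1, hy2⟩
    · exfalso
      rw [Set.mem_singleton_iff] at hy1
      subst hy1
      exact chains_x _ hmem hy2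
  choose f hfK hf using h1
  have hinj : Function.Injective f := by
    intro i j hij
    have h2 := hK.1 (f i) (hfK i)
    exact chains_disj i j (f i) (hf i) (hij ▸ hf j) h2.1 h2.2
  have h3 : (Set.range f).encard = 9 := by
    rw [← Set.image_univ, hinj.encard_image, Set.encard_univ]
    simp
  calc ((9 : ℕ) : ℕ∞) = (Set.range f).encard := by rw [h3]; rfl
    _ ≤ K.encard := Set.encard_le_encard (by rintro _ ⟨i, rfl⟩; exact hfK i)

theorem no_antichain : ¬ ∃ A : Set L, IsMaxAntichain (· ≤ ·) A ∧ x0 ∈ A ∧
    A.encard = ((9 : ℕ) : ℕ∞) + 1 := by
  classical
  rintro ⟨A, hA, hx, hcard⟩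
  let B : Finset L := Finset.univ.filter (fun y => y ∈ A ∧ y ≠ x0)
  have hB : (B : Set L) = A \ {x0} := by
    ext y; simp [B]
  have hBc : B.card = 9 := by
    have h1 := Set.encard_sdiff_singleton_add_one hx
    rw [← hB, hcard, Set.encard_coe_eq_coe_finsetCard] at h1
    have h2 : ((B.card + 1 : ℕ) : ℕ∞) = ((9 + 1 : ℕ) : ℕ∞) := by exact_mod_cast h1
    have h3 : B.card + 1 = 9 + 1 := by exact_mod_cast h2
    omega
  have hmemB : ∀ a, a ∈ B ↔ a ∈ A ∧ a ≠ x0 := by intro a; simp [B]
  have hanti : ∀ a ∈ A, ∀ b ∈ A, a ≠ b → cmp a b = false := by
    intro a ha b hb hab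
    rw [cmp_false_iff]
    exact ⟨hA.1 ha hb hab, hA.1 hb ha hab.symm⟩
  obtain ⟨y, hy, hyA⟩ := go_sound 40 incL [] go_all List.nodup_nil B (by simp) (by
      intro a ha
      right
      obtain ⟨haA, hax⟩ := (hmemB a).1 ha
      have := hanti a haA x0 hx hax
      rw [cmp_false_iff] at this
      exact inc_mem a this.1 this.2)
    (fun a ha b hb hab => hanti a ((hmemB a).1 ha).1 b ((hmemB b).1 hb).1 hab) hBc
  have hy2 := inc_inc y hy
  have hycmp : ∀ a ∈ A, ¬ y ≤ a ∧ ¬ a ≤ y := by
    intro a ha
    by_cases hax : a = x0
    · subst hax; exact hy2
    · exact (cmp_false_iff _ _).1 (hyA a ((hmemB a).2 ⟨ha, hax⟩))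
  have hyA' : y ∉ A := fun h => (hycmp y h).1 le_rfl
  have hins : IsAntichain (· ≤ ·) (insert y A) := by
    intro a ha b hb hab
    rcases ha with rfl | ha
    · rcases hb with rfl | hb
      · exact absurd rfl hab
      · exact (hycmp b hb).1
    · rcases hb with rfl | hb
      · exact (hycmp a ha).2
      · exact hA.1 ha hb hab
  have : A = insert y A := hA.2 hins (Set.subset_insert _ _)
  exact hyA' (this ▸ Set.mem_insert _ _)

/-- There is a finite distributive lattice `L` and an element `x` whose minimum-sized cutsets
have `m` elements (here `m = 9`) such that no maximal antichain of `L` containing `x` has exactly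
`m + 1` elements. -/
theorem result :
    (∃ (L : Type) (_ : DistribLattice L) (_ : Finite L) (x : L) (m : ℕ),
      (∃ K : Set L, IsCutsetFor x K ∧ K.encard = m) ∧
      (∀ K : Set L, IsCutsetFor x K → (m : ℕ∞) ≤ K.encard) ∧
      ¬ ∃ A : Set L, IsMaxAntichain (· ≤ ·) A ∧ x ∈ A ∧ A.encard = m + 1) ∧
    ¬ (∀ (L : Type) [DistribLattice L] (x : L) (m : ℕ),
      (∃ K : Set L, IsCutsetFor x K ∧ K.encard = m) →
      (∀ K : Set L, IsCutsetFor x K → (m : ℕ∞) ≤ K.encard) →
      ∃ A : Set L, IsMaxAntichain (· ≤ ·) A ∧ x ∈ A ∧ A.encard = m + 1) := by
  have hcutc : ({y | y ∈ cutL} : Set L).encard = ((9 : ℕ) : ℕ∞) := by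
    have : ({y | y ∈ cutL} : Set L) = (cutL.toFinset : Set L) := by ext y; simp
    rw [this, Set.encard_coe_eq_coe_finsetCard, List.toFinset_card_of_nodup cut_nodup]
    rfl
  refine ⟨⟨L, inferInstance, inferInstance, x0, 9, ⟨_, cutL_isCutsetFor, hcutc⟩, lower_bound,
    no_antichain⟩, ?_⟩
  intro h
  exact no_antichain (h L x0 9 ⟨_, cutL_isCutsetFor, hcutc⟩ lower_bound)

end Pool.Agent.Results.MP_d015b4_co.Lattice52
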